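import Mathlib
import Pool.Agent.H96.Harm
import Pool.Agent.H96.HarmIneq

set_option autoImplicit false
open Filter Topology InnerProductSpace Laplacian Complex

namespace Pool.Agent.Results.MP_677f70_an.Exists

open Pool.Agent.H96.Harm Pool.Agent.H96.HarmIneq

/-- the planar region -/
def U : Set ℂ := {z | 0 < z.re ∧ 50 < Real.log ‖z‖ ∧ 0 < (V z).re}

theorem U_open : IsOpen U := by
  rw [isOpen_iff_mem_nhds]
  rintro z ⟨h0, h1, h2⟩
  have hz : z ≠ 0 := by rintro rfl; norm_num at h1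
  have c1 : ContinuousAt (fun w : ℂ => Real.log ‖w‖) z :=
    continuous_norm.continuousAt.log (norm_ne_zero_iff.mpr hz)
  have c2 : ContinuousAt (fun w : ℂ => (V w).re) z :=
    continuous_re.continuousAt.comp (V_analytic z h0.le (by linarith)).2.continuousAt
  filter_upwards [continuous_re.continuousAt.eventually (lt_mem_nhds h0),
    c1.eventually (lt_mem_nhds h1), c2.eventually (lt_mem_nhds h2)] with w a b c using ⟨a, b, c⟩

theorem V_real (a : ℝ) (ha : 50 ≤ Real.log a) (h0 : 0 < a) : a ≤ (V a).re := by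
  have h1 : arg (log (a : ℂ)) = 0 := by
    rw [← ofReal_log h0.le]; exact arg_ofReal_of_nonneg (by linarith)
  rw [V_re _ (ofReal_ne_zero.mpr h0.ne'), h1, arg_ofReal_of_nonneg h0.le, norm_real, Real.norm_of_nonneg h0.le]
  have h2 : 1 ≤ F a := by
    apply Real.one_le_exp
    have : 0 ≤ Real.log ‖log (a : ℂ)‖ := by
      apply Real.log_nonneg
      rw [← ofReal_log h0.le, norm_real, Real.norm_of_nonneg (by linarith)]; linarith
    positivity
  simp only [abs_zero, mul_zero, add_zero, Real.cos_zero, mul_one]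
  nlinarith

theorem majorant (m : ℕ) : ∃ h : EuclideanSpace ℝ (Fin (m + 2)) → ℝ,
    ∀ x, pl 1 0 x ∈ U → HarmonicAt h x ∧ ‖x‖ ≤ h x := by
  refine ⟨fun x => 2 * (pl 1 0 x * log (pl 1 0 x)).re + ∑ j ∈ Finset.univ.erase 1,
    (12 * (pl 1 0 x * log (pl 1 0 x)).re - 4 / 3 * (pl 1 j x * log (pl 1 j x)).re), fun x hx => ?_⟩
  obtain ⟨h0, h1, h2⟩ := hx
  have hh : ∀ j : Fin (m + 2), j ≠ 1 → ∀ c : ℝ,
      HarmonicAt (fun y => c * (pl 1 j y * log (pl 1 j y)).re) x := by
    intro j hj c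
    refine (harm_comp 1 j hj.symm (fun z => z * log z) x ?_).const_smul (c := c)
    refine analyticAt_id.mul (analyticAt_clog (Or.inl ?_))
    rwa [pl_re] at h0 ⊢
  have h01 : (0 : Fin (m + 2)) ≠ 1 := by simp
  refine ⟨(hh 0 h01 2).add (harm_sum _ _ _ fun j hj =>
    (hh 0 h01 12).sub (hh j (Finset.ne_of_mem_erase hj) (4 / 3))), ?_⟩
  have h3 : ‖x‖ ≤ ∑ j, |x j| := by
    conv_lhs => rw [← (EuclideanSpace.basisFun (Fin (m + 2)) ℝ).sum_repr x]
    refine (norm_sum_le _ _).trans (le_of_eq (Finset.sum_congr rfl fun j _ => ?_))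
    rw [norm_smul, (EuclideanSpace.basisFun (Fin (m + 2)) ℝ).norm_eq_one]
    simp
  rw [← Finset.add_sum_erase _ _ (Finset.mem_univ 1)] at h3
  refine h3.trans (add_le_add ?_ (Finset.sum_le_sum fun j _ => ?_))
  · have := abs_re_le_norm (pl 1 0 x)
    rw [pl_re] at this
    exact this.trans (maj_lower _ h0.le h1.le h2)
  · have := side_bound _ (pl 1 j x) h0 h1.le h2 (by rw [pl_re, pl_re])
    rwa [pl_im] at this

theorem no_majorant (m : ℕ) (a : ℝ) (ha : Real.exp 100 * 8000 + 2 ≤ a)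
    (H : EuclideanSpace ℝ (Fin (m + 2)) → ℝ)
    (hH : ∀ x ∈ connectedComponentIn (pl 1 0 ⁻¹' U) (EuclideanSpace.single (1 : Fin (m + 2)) a),
      HarmonicAt H x ∧ |x 0| * Real.posLog |x 0| ≤ H x) (s : ℝ) (hs : 10 ≤ s)
    (has : Real.log a ≤ s ^ 2) :
    s / 16 ≤ 8 * H (EuclideanSpace.single 1 a) + (a * log a ^ 2).re + 1 := by
  set p : EuclideanSpace ℝ (Fin (m + 2)) := EuclideanSpace.single 1 a with hp
  set O : Set (EuclideanSpace ℝ (Fin (m + 2))) := pl 1 0 ⁻¹' U with hO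
  set D := connectedComponentIn O p with hD
  have hOo : IsOpen O := U_open.preimage (pl 1 0).continuous
  have hDo : IsOpen D := hOo.connectedComponentIn
  have h01 : (1 : Fin (m + 2)) ≠ 0 := by simp
  have he := Real.exp_pos 100
  have ha0 : 0 < a := by linarith
  have hpa : pl 1 0 p = a := by
    apply Complex.ext <;> simp [pl_re, pl_im, hp]
  have hla : 100 ≤ Real.log a := (Real.le_log_iff_exp_le ha0).mpr (by linarith)
  have hVa := V_real a (by linarith) ha0
  set M : ℝ := Real.exp 100 * 8000 + 1 with hM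
  set R : ℝ := Real.exp (s ^ 2) with hR
  have hR0 : 0 < R := Real.exp_pos _
  set g : EuclideanSpace ℝ (Fin (m + 2)) → ℝ := fun y => ‖y‖ ^ 2 - (m + 3 : ℝ) * y 1 ^ 2 with hg
  set e : ℝ := 1 / (‖p‖ ^ 2 + (m + 3 : ℝ) * R ^ 2 + 1) with hedef
  have he0 : 0 < e := by positivity
  obtain ⟨T, hT1, hT2⟩ : ∃ T : ℝ, ‖p‖ ≤ T ∧ s / 16 * (R * (8 * s ^ 3)) ≤ e * T ^ 2 := by
    refine ⟨‖p‖ + 1 + s / 16 * (R * (8 * s ^ 3)) / e, ?_, ?_⟩
    · have : 0 ≤ s / 16 * (R * (8 * s ^ 3)) / e := by positivity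
      linarith
    · rw [← div_le_iff₀' he0]
      have : 0 ≤ s / 16 * (R * (8 * s ^ 3)) / e := by positivity
      nlinarith [norm_nonneg p]
  set C : Set (EuclideanSpace ℝ (Fin (m + 2))) := {x | Real.exp 100 ≤ ‖pl 1 0 x‖ ∧ ‖pl 1 0 x‖ ≤ R ∧
    0 ≤ (pl 1 0 x).re ∧ ‖x‖ ≤ T} with hC
  have hCl : ∀ x ∈ C, 100 ≤ Real.log ‖pl 1 0 x‖ ∧ Real.log ‖pl 1 0 x‖ ≤ s ^ 2 := fun x hx =>
    ⟨(Real.le_log_iff_exp_le (he.trans_le hx.1)).mpr hx.1,
      (Real.log_le_iff_le_exp (he.trans_le hx.1)).mpr hx.2.1⟩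
  have hCc : IsClosed C := by
    simp only [hC, Set.setOf_and]
    refine IsClosed.inter ?_ (IsClosed.inter ?_ (IsClosed.inter ?_ ?_)) <;>
      exact isClosed_le (by fun_prop) (by fun_prop)
  have hVh : ∀ x ∈ C, HarmonicAt (fun y => (V (pl 1 0 y)).re) x ∧
      HarmonicAt (fun y => (pl 1 0 y * log (pl 1 0 y) ^ 2).re) x := by
    intro x hx
    have h1 := V_analytic _ hx.2.2.1 (by linarith [(hCl x hx).1])
    exact ⟨harm_comp 1 0 h01 V x h1.2,
      harm_comp 1 0 h01 (fun z => z * log z ^ 2) x (analyticAt_id.mul (h1.1.pow 2))⟩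
  set K0 := C ∩ (fun y => (V (pl 1 0 y)).re) ⁻¹' Set.Ici M with hK0
  have hK0c : IsClosed K0 :=
    ContinuousOn.preimage_isClosed_of_isClosed
      (fun x hx => (hVh x hx).1.1.continuousAt.continuousWithinAt) hCc isClosed_Ici
  have hK0O : ∀ x ∈ K0, x ∈ O := by
    intro x hx
    have h1 := (hCl x hx.1).1
    have h2 : M ≤ (V (pl 1 0 x)).re := hx.2
    refine ⟨lt_of_le_of_ne hx.1.2.2.1 fun h => ?_, by linarith, by linarith⟩
    have h3 := V_le (pl 1 0 x) (norm_pos_iff.mp (he.trans_le hx.1.1)) h.le (by linarith)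
    rw [← h] at h3
    linarith
  have hKD : ∀ x ∈ K0 ∩ closure D, x ∈ D := by
    rintro x ⟨hx, hx2⟩
    obtain ⟨w, hw1, hw2⟩ := mem_closure_iff_nhds.mp hx2 _
      (hOo.connectedComponentIn.mem_nhds (mem_connectedComponentIn (hK0O x hx)))
    rw [hD, connectedComponentIn_eq hw2, ← connectedComponentIn_eq hw1]
    exact mem_connectedComponentIn (hK0O x hx)
  have hKc : IsCompact (K0 ∩ closure D) :=
    Metric.isCompact_of_isClosed_isBounded (hK0c.inter isClosed_closure)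
      ((Metric.isBounded_closedBall (x := 0) (r := T)).subset fun x hx => by simpa using hx.1.1.2.2.2)
  have hp0 : p ∈ K0 := by
    refine ⟨⟨?_, ?_, ?_, hT1⟩, ?_⟩
    · rw [hpa, norm_real, Real.norm_of_nonneg ha0.le]; linarith
    · rw [hpa, norm_real, Real.norm_of_nonneg ha0.le]
      exact (Real.log_le_iff_le_exp ha0).mp has
    · rw [hpa]; exact ha0.le
    · change M ≤ (V (pl 1 0 p)).re
      rw [hpa]; linarith
  have hpK : p ∈ K0 ∩ closure D := ⟨hp0, subset_closure (mem_connectedComponentIn (hK0O p hp0))⟩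
  set W0 : EuclideanSpace ℝ (Fin (m + 2)) → ℝ := fun y => 8 * H y - s / 16 * (V (pl 1 0 y)).re +
    (pl 1 0 y * log (pl 1 0 y) ^ 2).re + (s / 16 * M + e * ((m + 3 : ℝ) * R ^ 2)) with hW0
  have hW0h : ∀ x ∈ K0 ∩ closure D, HarmonicAt W0 x := fun x hx =>
    ((((hH x (hKD x hx)).1.const_smul (c := 8)).sub ((hVh x hx.1.1).1.const_smul (c := s / 16))).add
      (hVh x hx.1.1).2).add (harmonicAt_const _)
  have hgs : ContDiff ℝ 2 (e • g) := (quad_smooth 1 _).const_smul e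
  obtain ⟨q, hq, hmin⟩ := hKc.exists_isMinOn (f := W0 + e • g) ⟨p, hpK⟩ fun x hx =>
    ((hW0h x hx).1.continuousAt.add hgs.continuous.continuousAt).continuousWithinAt
  have hq0 : 0 ≤ (W0 + e • g) q := by
    obtain ⟨⟨⟨c1, c2, c3, c4⟩, c5⟩, c6⟩ := id hq
    obtain ⟨l1, l2⟩ := hCl q hq.1.1
    have c7 : M ≤ (V (pl 1 0 q)).re := c5
    have b1 := bar_upper _ c3 (by linarith)
    have b2 := (hH q (hKD q hq)).2
    rw [pl_im] at b1
    have b3 := V_le _ (norm_pos_iff.mp (he.trans_le c1)) c3 (by linarith)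
    have b4 := re_le_norm (pl 1 0 q)
    have b5 : q 1 ^ 2 ≤ R ^ 2 := by
      rw [← pl_re 1 0 q]; exact pow_le_pow_left₀ c3 (b4.trans c2) 2
    have b6 : e * ‖q‖ ^ 2 ≤ e * ((m + 3 : ℝ) * R ^ 2) + e * g q := by
      rw [← mul_add]
      refine mul_le_mul_of_nonneg_left ?_ he0.le
      simp only [hg]
      nlinarith [show (0 : ℝ) ≤ m + 3 by positivity]
    have b7 : 0 ≤ e * ‖q‖ ^ 2 := by positivity
    have b8 : 0 ≤ (pl 1 0 q).re * Real.log ‖pl 1 0 q‖ ^ 2 := by positivity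
    have b9 : 0 ≤ s / 16 * M := by positivity
    have b10 := F_le _ c3 (by linarith) s (by linarith) l2
    have b11 : (V (pl 1 0 q)).re ≤ (pl 1 0 q).re * (8 * s ^ 3) :=
      b3.trans (mul_le_mul_of_nonneg_left b10 c3)
    simp only [Pi.add_apply, Pi.smul_apply, smul_eq_mul, hW0]
    by_contra hneg
    have d1 : Real.exp 100 < ‖pl 1 0 q‖ := by
      refine lt_of_le_of_ne c1 fun h => ?_
      have h1 := F_le _ c3 (by linarith) 10 (by norm_num) (by rw [← h, Real.log_exp]; norm_num)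
      have h2 : (pl 1 0 q).re * F (pl 1 0 q) ≤ Real.exp 100 * (8 * 10 ^ 3) :=
        mul_le_mul (h ▸ b4) h1 (F_pos _).le he.le
      linarith
    have d2 : ‖pl 1 0 q‖ < R := by
      refine lt_of_le_of_ne c2 fun h => ?_
      rw [h, hR, Real.log_exp] at b1
      have h1 := mul_le_mul_of_nonneg_left b11 (show 0 ≤ s / 16 by linarith)
      apply hneg
      nlinarith
    have d3 : ‖q‖ < T := by
      refine lt_of_le_of_ne c4 fun h => ?_
      rw [h] at b6
      have h1 := mul_le_mul_of_nonneg_left (b11.trans (mul_le_mul_of_nonneg_right (b4.trans c2)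
        (by positivity))) (show 0 ≤ s / 16 by linarith)
      apply hneg
      linarith
    have d4 : M < (V (pl 1 0 q)).re := by
      refine lt_of_le_of_ne c7 fun h => ?_
      apply hneg
      rw [← h]
      linarith
    have d5 : K0 ∩ closure D ∈ 𝓝 q := by
      have e1 : ContinuousAt (fun y : EuclideanSpace ℝ (Fin (m + 2)) => ‖pl 1 0 y‖) q := by fun_prop
      have e2 : ContinuousAt (fun y : EuclideanSpace ℝ (Fin (m + 2)) => (pl 1 0 y).re) q := by fun_prop
      filter_upwards [e1.eventually (lt_mem_nhds d1), e1.eventually (gt_mem_nhds d2),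
        e2.eventually (lt_mem_nhds (hK0O q hq.1).1),
        continuous_norm.continuousAt.eventually (gt_mem_nhds d3),
        (hVh q hq.1.1).1.1.continuousAt.eventually (lt_mem_nhds d4),
        hDo.mem_nhds (hKD q hq)] with y a1 a2 a3 a4 a5 a6
      exact ⟨⟨⟨a1.le, a2.le, a3.le, a4.le⟩, a5.le⟩, subset_closure a6⟩
    have d6 := second_nonneg _ q ((hW0h q hq).1.add hgs.contDiffAt) (hmin.isLocalMin d5)
    have d7 := ContDiffAt.laplacian_add (hW0h q hq).1 hgs.contDiffAt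
    have d8 := laplacian_smul e (quad_smooth (1 : Fin (m + 2)) (m + 3 : ℝ)).contDiffAt (x := q)
    rw [lap_quad] at d8
    have d9 : Δ W0 q = 0 := (hW0h q hq).2.eq_of_nhds
    have d10 : Δ (W0 + e • g) q = e * (-2) := by
      rw [d7, d9, zero_add]
      refine d8.trans ?_
      push_cast
      simp only [smul_eq_mul]
      ring
    have d11 : 0 ≤ Δ (W0 + e • g) q := d6
    linarith
  have h1 : 0 ≤ (W0 + e • g) p := hq0.trans (hmin hpK)
  simp only [Pi.add_apply, Pi.smul_apply, smul_eq_mul, hW0, hpa] at h1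
  have h2 : e * ((m + 3 : ℝ) * R ^ 2) + e * g p ≤ 1 := by
    rw [← mul_add, hedef, div_mul_eq_mul_div, one_mul, div_le_one (by positivity)]
    simp only [hg]
    nlinarith [show (0 : ℝ) ≤ (m + 3) * p 1 ^ 2 by positivity]
  have h3 := mul_le_mul_of_nonneg_left (show M + 1 ≤ (V a).re by linarith) (show 0 ≤ s / 16 by linarith)
  linarith

theorem result (m : ℕ) : ∃ D : Set (EuclideanSpace ℝ (Fin (m + 2))),
    IsOpen D ∧ IsConnected D ∧ ¬ Bornology.IsBounded D ∧
    (∃ h : EuclideanSpace ℝ (Fin (m + 2)) → ℝ, HarmonicOnNhd h D ∧ ∀ x ∈ D, ‖x‖ ≤ h x) ∧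
    ¬ ∃ h : EuclideanSpace ℝ (Fin (m + 2)) → ℝ, HarmonicOnNhd h D ∧
      ∀ x ∈ D, |x 0| * max (Real.log |x 0|) 0 ≤ h x := by
  set a : ℝ := Real.exp 100 * 8000 + 2 with ha
  have he := Real.exp_pos 100
  have ha0 : 0 < a := by linarith
  have hla : 100 ≤ Real.log a := (Real.le_log_iff_exp_le ha0).mpr (by linarith)
  have hpa : pl 1 0 (EuclideanSpace.single (1 : Fin (m + 2)) a) = a := by
    apply Complex.ext <;> simp [pl_re, pl_im]
  have hp : EuclideanSpace.single (1 : Fin (m + 2)) a ∈ pl 1 0 ⁻¹' U := by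
    rw [Set.mem_preimage, hpa]
    refine ⟨ha0, ?_, ha0.trans_le (V_real a (by linarith) ha0)⟩
    rw [norm_real, Real.norm_of_nonneg ha0.le]; linarith
  have key : ¬ ∃ h : EuclideanSpace ℝ (Fin (m + 2)) → ℝ,
      HarmonicOnNhd h (connectedComponentIn (pl 1 0 ⁻¹' U) (EuclideanSpace.single 1 a)) ∧
      ∀ x ∈ connectedComponentIn (pl 1 0 ⁻¹' U) (EuclideanSpace.single (1 : Fin (m + 2)) a),
        |x 0| * max (Real.log |x 0|) 0 ≤ h x := by
    rintro ⟨H, h1, h2⟩
    set c := 8 * H (EuclideanSpace.single 1 a) + (a * log a ^ 2).re + 1 with hc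
    have h3 := no_majorant m a le_rfl H (fun x hx => ⟨h1 x hx, by
      rw [Real.posLog, max_comm]; exact h2 x hx⟩) (Real.log a + 16 * |c|)
      (by linarith [abs_nonneg c]) (by nlinarith [abs_nonneg c])
    linarith [le_abs_self c]
  refine ⟨_, (U_open.preimage (pl 1 0).continuous).connectedComponentIn,
    isConnected_connectedComponentIn_iff.mpr hp, fun hb => key ?_, ?_, key⟩
  · obtain ⟨r, hr⟩ := hb.exists_norm_le
    refine ⟨fun _ => r * r, harmonicOnNhd_const _, fun x hx => ?_⟩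
    have h1 : |x 0| ≤ r := (PiLp.norm_apply_le x 0).trans (hr x hx)
    have h2 := Real.log_le_self (abs_nonneg (x 0))
    exact mul_le_mul h1 (max_le (h2.trans h1) ((abs_nonneg _).trans h1)) (le_max_right _ _)
      ((abs_nonneg _).trans h1)
  · obtain ⟨h, hh⟩ := majorant m
    exact ⟨h, fun x hx => (hh x (connectedComponentIn_subset (pl 1 0 ⁻¹' U) _ hx)).1,
      fun x hx => (hh x (connectedComponentIn_subset (pl 1 0 ⁻¹' U) _ hx)).2⟩

end Pool.Agent.Results.MP_677f70_an.Exists
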